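import Pool.Agent.helper1.SOL.SpecN

set_option autoImplicit false

/-!
# Row SYA: isomorphisms of difference graphs
-/

namespace Pool.Agent.SOL

open Pool.Agent.helper54.SOG Finset

open scoped BigOperators

theorem SYA_adj_iff {A : Type*} [AddCommGroup A] {S : Set A} (h : Sy S) (v w : S) :
    (gph S).Adj v w ↔ (v : A) - (w : A) ∈ S := by
  unfold gph
  rw [SimpleGraph.fromRel_adj]
  constructor
  · rintro ⟨_, h1 | h1⟩
    · exact h1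
    · have := h.neg _ h1
      rwa [neg_sub] at this
  · intro h1
    refine ⟨fun h2 => ?_, Or.inl h1⟩
    subst h2
    rw [sub_self] at h1
    exact h.zero h1

theorem SYA_adj {A A' : Type*} [AddCommGroup A] [AddCommGroup A'] {S : Set A} {S' : Set A'}
    (hS : Sy S) (hS' : Sy S') (ψ : gph S ≃g gph S')
    {x y : A} (hx : x ∈ S) (hy : y ∈ S) : up ψ x - up ψ y ∈ S' ↔ x - y ∈ S := by
  rw [up_of_mem ψ hx, up_of_mem ψ hy, ← SYA_adj_iff hS', ψ.map_adj_iff, SYA_adj_iff hS]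

theorem SYA_SS {A A' : Type*} [AddCommGroup A] [AddCommGroup A'] {S : Set A} {S' : Set A'}
    (hS : Sy S) (hS' : Sy S') (ψ : gph S ≃g gph S')
    {x y : A} (hx : x ∈ S) (hy : y ∈ S) : SS S' (up ψ x) (up ψ y) = up ψ '' SS S x y := by
  ext z'
  constructor
  · rintro ⟨h1, h2, h3, h4, h5⟩
    obtain ⟨z, hz, rfl⟩ := up_surj ψ h1
    refine ⟨z, ⟨hz, (SYA_adj hS hS' ψ hy hz).1 h2, ?_, ?_, ?_⟩, rfl⟩
    · rintro rfl
      exact h3 rfl
    · intro h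
      exact h4 ((SYA_adj hS hS' ψ hx hz).2 h)
    · intro v hv h6 h7
      exact up_inj ψ hv hy (h5 _ (up_mem ψ hv) ((SYA_adj hS hS' ψ hx hv).2 h6)
        ((SYA_adj hS hS' ψ hz hv).2 h7))
  · rintro ⟨z, ⟨hz, h2, h3, h4, h5⟩, rfl⟩
    refine ⟨up_mem ψ hz, (SYA_adj hS hS' ψ hy hz).2 h2, ?_, ?_, ?_⟩
    · intro h
      exact h3 (up_inj ψ hz hx h)
    · intro h
      exact h4 ((SYA_adj hS hS' ψ hx hz).1 h)
    · intro v' hv' h6 h7
      obtain ⟨v, hv, rfl⟩ := up_surj ψ hv'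
      rw [h5 v hv ((SYA_adj hS hS' ψ hx hv).1 h6) ((SYA_adj hS hS' ψ hz hv).1 h7)]

theorem SYA_EE {A A' : Type*} [AddCommGroup A] [AddCommGroup A'] {S : Set A} {S' : Set A'}
    (hS : Sy S) (hS' : Sy S') (ψ : gph S ≃g gph S')
    {x y : A} (hx : x ∈ S) (hy : y ∈ S) : EE S x y ↔ EE S' (up ψ x) (up ψ y) := by
  unfold EE
  rw [SYA_SS hS hS' ψ hx hy, SYA_adj hS hS' ψ hx hy, Set.image_eq_empty]
  constructor
  · rintro ⟨-, -, h3, h4⟩
    exact ⟨up_mem ψ hx, up_mem ψ hy, h3, h4⟩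
  · rintro ⟨-, -, h3, h4⟩
    exact ⟨hx, hy, h3, h4⟩

theorem SYA_NI {A A' : Type*} [AddCommGroup A] [AddCommGroup A'] {S : Set A} {S' : Set A'}
    (hS : Sy S) (hS' : Sy S') (ψ : gph S ≃g gph S')
    {x : A} (hx : x ∈ S) : x ∈ NI S ↔ up ψ x ∈ NI S' := by
  constructor
  · rintro ⟨-, y, hy, hxy⟩
    exact ⟨up_mem ψ hx, up ψ y, up_mem ψ hy, (SYA_adj hS hS' ψ hx hy).2 hxy⟩
  · rintro ⟨-, y', hy', hxy'⟩
    obtain ⟨y, hy, rfl⟩ := up_surj ψ hy'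
    exact ⟨hx, y, hy, (SYA_adj hS hS' ψ hx hy).1 hxy'⟩

theorem SYA : SYA_stmt := by
  intro n m S S' ψ hS hS'
  refine ⟨fun x hx y hy => SYA_adj hS hS' ψ hx hy, fun x hx y hy => SYA_SS hS hS' ψ hx hy,
    fun x hx y hy => (SYA_EE hS hS' ψ hx hy).1, ?_, fun x hx => SYA_NI hS hS' ψ hx, ?_,
    fun x' hx' => up_surj ψ hx', fun x hx y hy h => up_inj ψ hx hy h⟩
  · intro x hx
    constructor
    · rintro ⟨h1, h2⟩
      refine ⟨(SYA_NI hS hS' ψ hx).1 h1, ?_⟩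
      intro y' hE
      obtain ⟨y, hy, rfl⟩ := up_surj ψ hE.2.1
      exact h2 y ((SYA_EE hS hS' ψ hx hy).2 hE)
    · rintro ⟨h1, h2⟩
      refine ⟨(SYA_NI hS hS' ψ hx).2 h1, ?_⟩
      intro y hE
      exact h2 _ ((SYA_EE hS hS' ψ hx hE.2.1).1 hE)
  · intro x hx
    have h1 : NB S' (up ψ x) = up ψ '' NB S x := by
      ext z'
      constructor
      · rintro ⟨h1, h2⟩
        obtain ⟨z, hz, rfl⟩ := up_surj ψ h1
        exact ⟨z, ⟨hz, (SYA_adj hS hS' ψ hx hz).1 h2⟩, rfl⟩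
      · rintro ⟨z, ⟨hz, h2⟩, rfl⟩
        exact ⟨up_mem ψ hz, (SYA_adj hS hS' ψ hx hz).2 h2⟩
    rw [h1, Set.ncard_image_of_injOn]
    intro a ha b hb hab
    exact up_inj ψ ha.1 hb.1 hab

end Pool.Agent.SOL
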