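import Pool.Agent.helper1.SOL.SpecN

set_option autoImplicit false

/-!
# Row SHC: the edges at the vertices with entries `0, ±2` in type C
-/

namespace Pool.Agent.SOL

open Pool.Agent.helper54.SOG Finset

open scoped BigOperators

theorem SHC_pt (X Y : ℤ) (hX : |X| = 2) (hXY : |X - Y| ≤ 2) : |X - Y| = 2 - |Y| ∨ 2 < |Y| := by
  have h1 := abs_le.1 hXY
  rcases (abs_eq (by norm_num : (0 : ℤ) ≤ 2)).1 hX with h | h
  · subst h
    have hY : 0 ≤ Y := by linarith [h1.2]
    rcases le_or_gt Y 2 with h2 | h2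
    · left
      rw [abs_of_nonneg hY, abs_of_nonneg (by linarith)]
    · right
      rw [abs_of_nonneg hY]; exact h2
  · subst h
    have hY : Y ≤ 0 := by linarith [h1.1]
    rcases le_or_gt (-2) Y with h2 | h2
    · left
      rw [abs_of_nonpos hY, abs_of_nonpos (by linarith)]
      ring
    · right
      rw [abs_of_nonpos hY]; linarith

theorem SHC_pt2 (X Y V : ℤ) (hX : |X| = 2) (hXY : |X - Y| ≤ 2) (hXV : |X - V| ≤ 2)
    (hz : |Y - X - V| ≤ 2) : |V| ≤ |Y| ∧ (|V| = |Y| → V = Y ∧ |Y - X - V| = 2) := by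
  have h1 := abs_le.1 hXY
  have h2 := abs_le.1 hXV
  have h3 := abs_le.1 hz
  rcases (abs_eq (by norm_num : (0 : ℤ) ≤ 2)).1 hX with h | h
  · subst h
    have hY : 0 ≤ Y := by linarith [h1.2]
    have hV : 0 ≤ V := by linarith [h2.2]
    rw [abs_of_nonneg hY, abs_of_nonneg hV]
    refine ⟨by linarith [h3.1], fun h => ⟨h, ?_⟩⟩
    rw [h]
    norm_num
  · subst h
    have hY : Y ≤ 0 := by linarith [h1.1]
    have hV : V ≤ 0 := by linarith [h2.1]
    rw [abs_of_nonpos hY, abs_of_nonpos hV]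
    refine ⟨by linarith [h3.2], fun h => ⟨by linarith, ?_⟩⟩
    have : V = Y := by linarith
    rw [this]
    norm_num

theorem SHC_zero {n k : ℕ} {x : Vec n} (hx : x ∈ TD n k 0) (i : Fin n) (hi : ¬ |x i| = 2) :
    x i = 0 := by
  obtain ⟨h2, -, h1⟩ := hx
  have h3 : |x i| ≠ 1 := by
    intro h
    rw [cnt, Finset.card_eq_zero, Finset.filter_eq_empty_iff] at h1
    exact h1 (mem_univ i) h
  have h4 := h2 i
  have h5 := abs_nonneg (x i)
  have h6 : |x i| = 0 := by omega
  exact abs_eq_zero.1 h6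

theorem SHC_half {n k : ℕ} {x y : Vec n} (hx : x ∈ TD n k 0) (hy : y ∈ VC n k)
    (hxy : x - y ∈ VC n k) :
    ∑ i ∈ univ.filter (fun i => |x i| = 2), |y i| = k ∧
    ∑ i ∈ univ.filter (fun i => ¬ |x i| = 2), |y i| = k := by
  have h1 : ∑ i ∈ univ.filter (fun i => |x i| = 2), |x i - y i| =
      2 * k - ∑ i ∈ univ.filter (fun i => |x i| = 2), |y i| := by
    have h2 : ∀ i ∈ univ.filter (fun i => |x i| = 2), |x i - y i| = 2 - |y i| := by
      intro i hi
      rcases SHC_pt (x i) (y i) (Finset.mem_filter.1 hi).2 (hxy.1 i) with h | h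
      · exact h
      · exact absurd (hy.1 i) (by linarith)
    rw [Finset.sum_congr rfl h2, Finset.sum_sub_distrib, Finset.sum_const]
    have h3 : (univ.filter (fun i => |x i| = 2)).card = k := hx.2.1
    rw [h3, nsmul_eq_mul]
    ring
  have h2 : ∑ i ∈ univ.filter (fun i => ¬ |x i| = 2), |x i - y i| =
      ∑ i ∈ univ.filter (fun i => ¬ |x i| = 2), |y i| := by
    apply Finset.sum_congr rfl
    intro i hi
    rw [SHC_zero hx i (Finset.mem_filter.1 hi).2, zero_sub, abs_neg]
  have h3 : ∑ i, |x i - y i| = 2 * k := hxy.2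
  have h4 : ∑ i, |y i| = 2 * k := hy.2
  rw [← Finset.sum_filter_add_sum_filter_not univ (fun i => |x i| = 2)] at h3 h4
  rw [h1, h2] at h3
  constructor <;> linarith

theorem SHC (hBTY : BTY_stmt) : SHC_stmt := by
  obtain ⟨-, hC, -, hl1, -, -, hSy, -⟩ := hBTY
  intro n k x y hk hx hy hxy
  have hSyC := (hSy n k hk).2
  obtain ⟨hP, hQ⟩ := SHC_half hx hy hxy
  have hcard : (univ.filter (fun i => |x i| = 2)).card = k := hx.2.1
  have hxC : x ∈ VC n k := by
    rw [hC]
    exact ⟨hx.1, by rw [hx.2.1, hx.2.2]; ring⟩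
  have hkZ : (1 : ℤ) ≤ k := by exact_mod_cast hk
  obtain ⟨i0, hi0⟩ : (univ.filter (fun i => |x i| = 2)).Nonempty := by
    rw [← Finset.card_pos, hcard]; omega
  have hi0' : |x i0| = 2 := (Finset.mem_filter.1 hi0).2
  refine ⟨⟨?_, ?_, ?_, ?_, ?_⟩, ?_⟩
  · have := hSyC.neg _ hxy
    rwa [neg_sub] at this
  · rw [sub_sub_cancel]
    exact hxC
  · intro h
    have h1 : y i0 = 2 * x i0 := by
      have := congrFun h i0
      simp only [Pi.sub_apply] at this
      linarith
    have h2 := hy.1 i0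
    rw [h1, abs_mul, hi0'] at h2
    norm_num at h2
  · intro h
    have h1 : ∀ i ∈ univ.filter (fun i => |x i| = 2), |y i| = 2 := by
      intro i hi
      have h2 := (Finset.mem_filter.1 hi).2
      have h3 := h.1 i
      have h4 := hy.1 i
      have h5 := hxy.1 i
      simp only [Pi.sub_apply] at h3 h5
      have h6 := abs_le.1 h3
      have h7 := abs_le.1 h4
      rcases (abs_eq (by norm_num : (0 : ℤ) ≤ 2)).1 h2 with h8 | h8
      · rw [h8] at h6
        have : y i = 2 := by linarith [h6.2]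
        rw [this]; norm_num
      · rw [h8] at h6
        have : y i = -2 := by linarith [h6.1]
        rw [this]; norm_num
    rw [Finset.sum_congr rfl h1, Finset.sum_const, hcard, nsmul_eq_mul] at hP
    linarith
  · intro v hv hxv hzv
    obtain ⟨hPv, hQv⟩ := SHC_half hx hv hxv
    have hpt : ∀ i ∈ univ.filter (fun i => |x i| = 2), |v i| ≤ |y i| ∧
        (|v i| = |y i| → v i = y i ∧ |y i - x i - v i| = 2) := by
      intro i hi
      exact SHC_pt2 (x i) (y i) (v i) (Finset.mem_filter.1 hi).2 (hxy.1 i) (hxv.1 i) (hzv.1 i)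
    have heq : ∀ i ∈ univ.filter (fun i => |x i| = 2), |v i| = |y i| :=
      (Finset.sum_eq_sum_iff_of_le fun i hi => (hpt i hi).1).1 (by rw [hPv, hP])
    have h1 : ∑ i ∈ univ.filter (fun i => |x i| = 2), |y i - x i - v i| = 2 * k := by
      rw [Finset.sum_congr rfl fun i hi => ((hpt i hi).2 (heq i hi)).2, Finset.sum_const, hcard,
        nsmul_eq_mul]
      ring
    have h2 : ∑ i, |y i - x i - v i| = 2 * k := hzv.2
    rw [← Finset.sum_filter_add_sum_filter_not univ (fun i => |x i| = 2), h1] at h2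
    have h3 : ∑ i ∈ univ.filter (fun i => ¬ |x i| = 2), |y i - x i - v i| = 0 := by linarith
    have h4 := (Finset.sum_eq_zero_iff_of_nonneg fun i _ => abs_nonneg _).1 h3
    funext i
    by_cases hi : |x i| = 2
    · exact ((hpt i (Finset.mem_filter.2 ⟨mem_univ i, hi⟩)).2
        (heq i (Finset.mem_filter.2 ⟨mem_univ i, hi⟩))).1
    · have h5 := abs_eq_zero.1 (h4 i (Finset.mem_filter.2 ⟨mem_univ i, hi⟩))
      rw [SHC_zero hx i hi] at h5
      linarith
  · intro hyT
    have heven : ∀ i, |(x - y) i| ≠ 1 := by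
      intro i h
      have h1 : x i = 0 ∨ x i = 2 ∨ x i = -2 := by
        by_cases hi : |x i| = 2
        · right; exact (abs_eq (by norm_num : (0 : ℤ) ≤ 2)).1 hi
        · left; exact SHC_zero hx i hi
      have h2 : y i = 0 ∨ y i = 2 ∨ y i = -2 := by
        by_cases hi : |y i| = 2
        · right; exact (abs_eq (by norm_num : (0 : ℤ) ≤ 2)).1 hi
        · left; exact SHC_zero hyT i hi
      have h3 := (abs_eq (by norm_num : (0 : ℤ) ≤ 1)).1 h
      simp only [Pi.sub_apply] at h3
      omega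
    have hc1 : cnt (x - y) 1 = 0 := by
      rw [cnt, Finset.card_eq_zero, Finset.filter_eq_empty_iff]
      intro i _
      exact heven i
    have h5 := ((hC n k (x - y)).1 hxy).2
    rw [hc1] at h5
    exact ⟨hxy.1, by omega, hc1⟩

end Pool.Agent.SOL
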